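import Pool.Agent.Helper52.SX.Goals2

/-!
# SX-ERR: the number of the tests, times the bound of EXH
-/

set_option autoImplicit false

namespace Pool.Agent.Helper71.SX

open Pool.Agent.Helper78.DT (lg)

theorem errAux (c k : ℕ) (hk : 2 ≤ k) (N : ℕ) :
  (N : ℝ) * (2 * 3 ^ (k * (Nat.log 2 N + 1)) *
    (1 - 1 / ((k : ℝ) * 2 ^ k)) ^ ((k * 2 ^ k * (c + 2 * k + 6)) * lg N)) ≤
    1 / (4 * (lg N : ℝ) ^ c) := by
  set l := Nat.log 2 N with hl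
  have hL : lg N = l + 2 := rfl
  rw [hL]
  have hN : (N : ℝ) ≤ 2 ^ (l + 1) := by
    have := Nat.lt_pow_succ_log_self (b := 2) (by norm_num) N
    exact_mod_cast this.le
  -- exp bounds
  set E : ℝ := Real.exp 1 with hE
  have hE0 : 0 < E := Real.exp_pos 1
  have hE2 : (2 : ℝ) ≤ E := by have := Real.add_one_le_exp (1 : ℝ); linarith
  have hE1 : (1 : ℝ) ≤ E := by linarith
  have hkpos : (0 : ℝ) < (k : ℝ) * 2 ^ k := by positivity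
  have hB : (1 - 1 / ((k : ℝ) * 2 ^ k)) ^ (k * 2 ^ k) ≤ 1 / E := by
    have hnn : 0 ≤ 1 - 1 / ((k : ℝ) * 2 ^ k) := by
      rw [sub_nonneg, div_le_one hkpos]
      have h1 : (1 : ℝ) ≤ k := by exact_mod_cast (by omega : 1 ≤ k)
      have h2 : (1 : ℝ) ≤ 2 ^ k := one_le_pow₀ (by norm_num)
      nlinarith
    have h1 : 1 - 1 / ((k : ℝ) * 2 ^ k) ≤ Real.exp (-(1 / ((k : ℝ) * 2 ^ k))) := by
      have := Real.add_one_le_exp (-(1 / ((k : ℝ) * 2 ^ k)))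
      linarith
    calc (1 - 1 / ((k : ℝ) * 2 ^ k)) ^ (k * 2 ^ k)
        ≤ (Real.exp (-(1 / ((k : ℝ) * 2 ^ k)))) ^ (k * 2 ^ k) := pow_le_pow_left₀ hnn h1 _
      _ = Real.exp (((k * 2 ^ k : ℕ) : ℝ) * (-(1 / ((k : ℝ) * 2 ^ k)))) := by
          rw [Real.exp_nat_mul]
      _ = 1 / E := by
          have h2 : ((k * 2 ^ k : ℕ) : ℝ) * (-(1 / ((k : ℝ) * 2 ^ k))) = -1 := by
            push_cast
            field_simp
          rw [h2, hE, Real.exp_neg, one_div]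
  have hnn : 0 ≤ 1 - 1 / ((k : ℝ) * 2 ^ k) := by
    rw [sub_nonneg, div_le_one hkpos]
    have h1 : (1 : ℝ) ≤ k := by exact_mod_cast (by omega : 1 ≤ k)
    have h2 : (1 : ℝ) ≤ 2 ^ k := one_le_pow₀ (by norm_num)
    nlinarith
  have hB2 : (1 - 1 / ((k : ℝ) * 2 ^ k)) ^ ((k * 2 ^ k * (c + 2 * k + 6)) * (l + 2)) ≤
      1 / E ^ ((c + 2 * k + 6) * (l + 2)) := by
    rw [mul_assoc, pow_mul]
    calc ((1 - 1 / ((k : ℝ) * 2 ^ k)) ^ (k * 2 ^ k)) ^ ((c + 2 * k + 6) * (l + 2))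
        ≤ (1 / E) ^ ((c + 2 * k + 6) * (l + 2)) :=
          pow_le_pow_left₀ (pow_nonneg hnn _) hB _
      _ = _ := by rw [one_div_pow]
  have h3 : (3 : ℝ) ^ (k * (l + 1)) ≤ E ^ (2 * k * (l + 2)) := by
    calc (3 : ℝ) ^ (k * (l + 1)) ≤ (E ^ 2) ^ (k * (l + 1)) :=
          pow_le_pow_left₀ (by norm_num) (by nlinarith) _
      _ = E ^ (2 * (k * (l + 1))) := by rw [← pow_mul]
      _ ≤ E ^ (2 * k * (l + 2)) := pow_le_pow_right₀ hE1 (by nlinarith)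
  have h4 : (N : ℝ) * 2 ≤ E ^ (l + 2) := by
    calc (N : ℝ) * 2 ≤ 2 ^ (l + 1) * 2 := by linarith
      _ = 2 ^ (l + 2) := by ring
      _ ≤ E ^ (l + 2) := pow_le_pow_left₀ (by norm_num) hE2 _
  have h5 : ((l + 2 : ℕ) : ℝ) ^ c ≤ E ^ (c * (l + 2)) := by
    have : ((l + 2 : ℕ) : ℝ) ≤ E ^ (l + 2) := by
      have h := Real.add_one_le_exp (((l + 2 : ℕ) : ℝ))
      rw [hE, ← Real.exp_nat_mul, mul_one]
      linarith
    calc ((l + 2 : ℕ) : ℝ) ^ c ≤ (E ^ (l + 2)) ^ c := pow_le_pow_left₀ (by positivity) this _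
      _ = E ^ (c * (l + 2)) := by rw [← pow_mul, mul_comm]
  have h6 : (4 : ℝ) ≤ E ^ (l + 2) := by
    calc (4 : ℝ) = 2 ^ 2 := by norm_num
      _ ≤ E ^ 2 := pow_le_pow_left₀ (by norm_num) hE2 _
      _ ≤ E ^ (l + 2) := pow_le_pow_right₀ hE1 (by omega)
  rw [le_div_iff₀ (by positivity)]
  have hX : 0 ≤ (1 - 1 / ((k : ℝ) * 2 ^ k)) ^ ((k * 2 ^ k * (c + 2 * k + 6)) * (l + 2)) :=
    pow_nonneg hnn _
  calc (N : ℝ) * (2 * 3 ^ (k * (l + 1)) *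
        (1 - 1 / ((k : ℝ) * 2 ^ k)) ^ ((k * 2 ^ k * (c + 2 * k + 6)) * (l + 2))) *
        (4 * ((l + 2 : ℕ) : ℝ) ^ c)
      = ((N : ℝ) * 2) * 3 ^ (k * (l + 1)) * (4 * ((l + 2 : ℕ) : ℝ) ^ c) *
        (1 - 1 / ((k : ℝ) * 2 ^ k)) ^ ((k * 2 ^ k * (c + 2 * k + 6)) * (l + 2)) := by ring
    _ ≤ E ^ (l + 2) * E ^ (2 * k * (l + 2)) * (E ^ (l + 2) * E ^ (c * (l + 2))) *
        (1 / E ^ ((c + 2 * k + 6) * (l + 2))) := by
          gcongr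
    _ = E ^ ((c + 2 * k + 2) * (l + 2)) / E ^ ((c + 2 * k + 6) * (l + 2)) := by
          rw [mul_one_div, ← pow_add, ← pow_add, ← pow_add]
          congr 2
          ring
    _ ≤ 1 := by
          rw [div_le_one (by positivity)]
          exact pow_le_pow_right₀ hE1 (by nlinarith)

/-- **ERR.** -/
theorem err : Pool.Agent.Helper52.SX.ErrStmt := fun c k hk =>
  ⟨k * 2 ^ k * (c + 2 * k + 6), fun N => errAux c k hk N⟩

end Pool.Agent.Helper71.SX
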